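import Pool.Agent.R409.RH.Cen

/-!
# Central orders of Artin L-functions over `ℚ`, seen by Frobenius classes

Let `F/ℚ` be a finite Galois extension with group `G` and let `N_C(T)` be the finite sums
`∑ κ_γ(k log p / T) p^{-k/2} / k`, `κ_γ(u) = e^{iγu} / Γ(1 + u)`, over the prime powers
`p^k ≤ exp (exp (θ T))` with `Frob_p^k ∈ C`. Statements 2 and 3 of the problem for `F`, with the constant
`M₀`, are equivalent to inequalities for these sums, one for each character; if there are no poles at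
`1/2`, statement 2 is equivalent to a single inequality, in which a prime power is counted with the number
of square roots of its Frobenius element (Frobenius–Schur) plus the sum of all the irreducible characters;
and statements 2 and 3 imply a bound for the sum over the prime powers which split completely.
-/

set_option autoImplicit false

namespace Pool.Agent.Results.MP_347b49_nt.CentralOrdersFromClasses

open NumberField Filter Topology
open Pool.Agent.R409.RH

variable {G : Type} [Group G] {ι : Type} [Fintype ι] {d : ι → ℕ}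

/-- Statement 2: `L(1/2, χ) ≠ 0` for the non-trivial irreducible characters which are not symplectic. -/
def StatementTwo (ρ : ∀ i, G →* Matrix (Fin (d i)) (Fin (d i)) ℂ) (L : ι → ℂ → ℂ) : Prop :=
  ∀ i, (¬ ∀ g, (ρ i g).trace = 1) → fs (ρ i) ≠ -1 → ordAt (L i) (1 / 2) ≤ 0

/-- Statement 3: the order at `1/2` is at most `M₀` for the symplectic irreducible characters. -/
def StatementThree (ρ : ∀ i, G →* Matrix (Fin (d i)) (Fin (d i)) ℂ) (L : ι → ℂ → ℂ) (M₀ : ℕ) : Prop :=
  ∀ i, fs (ρ i) = -1 → ordAt (L i) (1 / 2) ≤ M₀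

/-- The sum `∑_C f(C) N_C(T)` at `s₀ = 1/2`. -/
noncomputable def wsum (frob : Nat.Primes → G) (I : Nat.Primes → Subgroup G) (f : ConjClasses G → ℂ)
    (γ θ T : ℝ) : ℂ :=
  ∑ᶠ C, f C * classSum frob I C (1 / 2) γ θ T

section proofs

variable [Finite G] {frob : Nat.Primes → G} {I : Nat.Primes → Subgroup G}
  {ρ : ∀ i, G →* Matrix (Fin (d i)) (Fin (d i)) ℂ} {L : ι → ℂ → ℂ}

/-- the characters -/
theorem lim_chi [Fintype (ConjClasses G)] {γ θ : ℝ} {m : ConjClasses G → ℂ}
    (h1 : ∀ C, Tendsto (fun T : ℝ => classSum frob I C (1 / 2) γ θ T / (Real.log T : ℂ)) atTop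
      (𝓝 (-m C))) (f : ConjClasses G → ℂ) {z : ℤ} (hz : (z : ℂ) = ∑ C, f C * m C) :
    Tendsto (fun T : ℝ => -(wsum frob I f γ θ T).re / Real.log T ^ 1) atTop (𝓝 (z : ℝ)) := by
  have h2 := tend_lin h1 f
  rw [← hz] at h2
  simp only [Complex.intCast_re] at h2
  unfold wsum
  simp only [finsum_eq_sum_of_fintype, pow_one]
  exact h2

end proofs

/-- **Central orders from Frobenius classes.** Let `F/ℚ` be a finite Galois extension with group `G`,
`frob p` a Frobenius element at a prime ideal `P p` above `p`, `ρ_i` the irreducible representations of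
`G`, `L_i` the meromorphic continuation of `L(s, ρ_i, F/ℚ)`, and `M₀` a natural number.

1. There are `c_C`, `m_C` with `N_C(T) = c_C - m_C (log T - Λ_γ) + O(1/T)` for all `C`, `γ > π/2`,
`θ > 1/2`, and for every representation `τ` of `G` with character `χ` the order of `L(s, τ)` at `1/2` is
`∑_C χ(C) m_C`, its leading coefficient `exp (∑_C χ(C) c_C)`.

2. Statements 2 and 3 (with `M₀`) hold for `F` if and only if for every non-trivial irreducible character
`χ` there are arbitrarily large `T` with `- Re ∑_C χ(C) N_C(T) ≤ (b + 1/2) log T`, `b = M₀` if `χ` is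
symplectic and `b = 0` otherwise.

3. `- Re ∑_C r(C) N_C(T) / log T`, `r(C)` the number of square roots of an element of `C`, tends to
`∑_χ ν(χ) ord_{1/2} L(s, χ)`, the sum over the orthogonal minus the sum over the symplectic characters.

4. If no `L_i` has a pole at `1/2`, statement 2 holds for `F` if and only if there are arbitrarily large
`T` with `- Re ∑_C (r(C) + ∑_χ χ(C)) N_C(T) ≤ (1/2) log T`.

5. `- #G Re N_1(T) / log T` tends to `∑_χ χ(1) ord_{1/2} L(s, χ)`, which is at most
`M₀ ∑_{χ symplectic} χ(1)` if statements 2 and 3 hold. -/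
theorem result (F : Type) [Field F] [NumberField F] [IsGalois ℚ F]
    (P : Nat.Primes → Ideal (𝓞 F)) (frob : Nat.Primes → (F ≃ₐ[ℚ] F)) (hfrob : IsFrobenius F P frob)
    (ι : Type) [Fintype ι] (d : ι → ℕ) (ρ : ∀ i, (F ≃ₐ[ℚ] F) →* Matrix (Fin (d i)) (Fin (d i)) ℂ)
    (hirr : AreIrreducible ρ) (L : ι → ℂ → ℂ)
    (hL : ∀ i, IsContinuation frob (inertiaAt F P) (ρ i) (L i)) (M₀ : ℕ) :
    (∃ c m : ConjClasses (F ≃ₐ[ℚ] F) → ℂ,
      (∀ γ θ : ℝ, Real.pi / 2 < γ → 1 / 2 < θ → ∀ C, ∃ B T₀ : ℝ, ∀ T : ℝ, T₀ ≤ T →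
        ‖classSum frob (inertiaAt F P) C (1 / 2) γ θ T -
          (c C - m C * (Real.log T - lam γ))‖ ≤ B / T) ∧
      (∀ (k : ℕ) (τ : (F ≃ₐ[ℚ] F) →* Matrix (Fin k) (Fin k) ℂ) (f : ℂ → ℂ),
        IsContinuation frob (inertiaAt F P) τ f →
        (∃ r : ℤ, meromorphicOrderAt f (1 / 2) = r ∧ (r : ℂ) = ∑ᶠ C, chi τ C * m C) ∧
        meromorphicTrailingCoeffAt f (1 / 2) = Complex.exp (∑ᶠ C, chi τ C * c C))) ∧
    ∀ γ θ : ℝ, Real.pi / 2 < γ → 1 / 2 < θ →
      (StatementTwo ρ L ∧ StatementThree ρ L M₀ ↔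
        ∀ i, (¬ ∀ g, (ρ i g).trace = 1) → ∀ T₀ : ℝ, ∃ T : ℝ, T₀ ≤ T ∧
          -(wsum frob (inertiaAt F P) (chi (ρ i)) γ θ T).re ≤
            (Set.indicator {i | fs (ρ i) = -1} (fun _ => (M₀ : ℝ)) i + 1 / 2) * Real.log T) ∧
      Tendsto (fun T : ℝ => -(wsum frob (inertiaAt F P) roots γ θ T).re / Real.log T) atTop
        (𝓝 (∑ i, (fs (ρ i)).re * (ordAt (L i) (1 / 2) : ℝ))) ∧
      ((∀ i, 0 ≤ ordAt (L i) (1 / 2)) → (StatementTwo ρ L ↔ ∀ T₀ : ℝ, ∃ T : ℝ, T₀ ≤ T ∧
        -(wsum frob (inertiaAt F P) (fun C => roots C + ∑ i, chi (ρ i) C) γ θ T).re ≤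
          1 / 2 * Real.log T)) ∧
      Tendsto (fun T : ℝ => -(Nat.card (F ≃ₐ[ℚ] F) : ℝ) *
        (classSum frob (inertiaAt F P) (ConjClasses.mk 1) (1 / 2) γ θ T).re / Real.log T) atTop
        (𝓝 (∑ i, (d i : ℝ) * (ordAt (L i) (1 / 2) : ℝ))) ∧
      (StatementTwo ρ L → StatementThree ρ L M₀ →
        ∑ i, (d i : ℤ) * ordAt (L i) (1 / 2) ≤
          ∑ i, Set.indicator {i | fs (ρ i) = -1} (fun i => (M₀ * d i : ℤ)) i) := by
  classical
  have : Fintype (ConjClasses (F ≃ₐ[ℚ] F)) := Fintype.ofFinite _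
  have hn := frob_normal hfrob
  have hre : (1 - (1 / 2 : ℂ).re : ℝ) = 1 / 2 := by
    norm_num
  have hfsv : ∀ i, fs (ρ i) = 1 ∨ fs (ρ i) = 0 ∨ fs (ρ i) = -1 := fun i =>
    fs_values (ρ i) (hirr.1 i)
  have htriv : ∀ i, (∀ g, (ρ i g).trace = 1) → ordAt (L i) (1 / 2) = 0 := fun i hi =>
    order_triv hn hirr hL hi
  refine ⟨?_, fun γ θ hγ hθ => ?_⟩
  · obtain ⟨c, m, h1, h2, -⟩ := class_law hn hirr hL (1 / 2)
    refine ⟨c, m, fun γ θ hγ hθ C => ?_, fun k τ f hf => ?_⟩
    · obtain ⟨B, T₀, -, -, hT⟩ := h1 γ θ hγ (by rw [hre]; exact hθ) (by linarith) C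
      exact ⟨B, T₀, hT⟩
    · simp only [finsum_eq_sum_of_fintype]
      exact h2 k τ f hf
  obtain ⟨m, h1, h2, h3, -⟩ := class_data hn hirr hL (1 / 2)
  have h1' := h1 γ θ hγ (by rw [hre]; exact hθ) (by linarith)
  have hm : ∀ C, m C = (Nat.card C.carrier : ℂ) / Nat.card (F ≃ₐ[ℚ] F) *
      ∑ i, (starRingEnd ℂ) (chi (ρ i) C) * ordAt (L i) (1 / 2) := h3
  have hval : ∀ i, (ordAt (L i) (1 / 2) : ℂ) = ∑ C, chi (ρ i) C * m C := fun i =>
    (h2 _ _ _ (hL i)).2
  -- the weights
  have hroot : ∑ C, roots C * m C = ∑ i, fs (ρ i) * ordAt (L i) (1 / 2) := roots_sum hirr hm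
  have hex : ∀ i, ∃ e : ℤ, fs (ρ i) = e := by
    intro i
    rcases hfsv i with h | h | h
    · exact ⟨1, by rw [h]; norm_num⟩
    · exact ⟨0, by rw [h]; norm_num⟩
    · exact ⟨-1, by rw [h]; norm_num⟩
  choose e he using hex
  have he' : ∀ i, -1 ≤ e i := by
    intro i
    have : (e i : ℂ) = 1 ∨ (e i : ℂ) = 0 ∨ (e i : ℂ) = -1 := by rw [← he i]; exact hfsv i
    rcases this with h | h | h
    · have : e i = 1 := by exact_mod_cast h
      omega
    · have : e i = 0 := by exact_mod_cast h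
      omega
    · have : e i = -1 := by exact_mod_cast h
      omega
  have hem : ∀ i, fs (ρ i) = -1 ↔ e i = -1 := by
    intro i
    rw [he i]
    constructor
    · intro h; exact_mod_cast h
    · intro h; exact_mod_cast h
  refine ⟨?_, ?_, ?_, ?_, ?_⟩
  · have hiff : ∀ i, (∀ T₀ : ℝ, ∃ T : ℝ, T₀ ≤ T ∧
          -(wsum frob (inertiaAt F P) (chi (ρ i)) γ θ T).re ≤
            (Set.indicator {i | fs (ρ i) = -1} (fun _ => (M₀ : ℝ)) i + 1 / 2) * Real.log T) ↔
        ordAt (L i) (1 / 2) ≤ if fs (ρ i) = -1 then (M₀ : ℤ) else 0 := by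
      intro i
      have h4 := thr_iff (lim_chi h1' (chi (ρ i)) (hval i))
        (a := Set.indicator {i | fs (ρ i) = -1} (fun _ => (M₀ : ℝ)) i + 1 / 2)
        (b := if fs (ρ i) = -1 then (M₀ : ℤ) else 0) (by
          by_cases h : fs (ρ i) = -1
          · rw [Set.indicator_of_mem (by exact h), if_pos h]
            push_cast
            rfl
          · rw [Set.indicator_of_notMem (by exact h), if_neg h]
            push_cast
            rfl)
      simp only [pow_one] at h4
      exact h4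
    simp only [hiff]
    constructor
    · rintro ⟨hA, hB⟩ i hi
      by_cases h : fs (ρ i) = -1
      · rw [if_pos h]
        exact hB i h
      · rw [if_neg h]
        exact hA i hi h
    · intro h
      refine ⟨fun i hi hi' => ?_, fun i hi => ?_⟩
      · have := h i hi
        rwa [if_neg hi'] at this
      · have h5 : ¬ ∀ g, (ρ i g).trace = 1 := by
          intro h6
          rw [fs_triv h6] at hi
          norm_num at hi
        have := h i h5
        rwa [if_pos hi] at this
  · have h4 := tend_lin h1' roots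
    rw [hroot] at h4
    unfold wsum
    simp only [finsum_eq_sum_of_fintype]
    have h5 : (∑ i, fs (ρ i) * (ordAt (L i) (1 / 2) : ℂ)).re =
        ∑ i, (fs (ρ i)).re * (ordAt (L i) (1 / 2) : ℝ) := by
      rw [Complex.re_sum]
      refine Finset.sum_congr rfl fun i _ => ?_
      rw [he i]
      simp
    rw [h5] at h4
    exact h4
  · intro hp
    have hz : ((∑ i, (e i + 1) * ordAt (L i) (1 / 2) : ℤ) : ℂ) =
        ∑ C, (fun C => roots C + ∑ i, chi (ρ i) C) C * m C := by
      simp only [add_mul, Finset.sum_add_distrib, Finset.sum_mul]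
      rw [hroot, Finset.sum_comm]
      simp only [← hval]
      push_cast
      simp only [add_mul, Finset.sum_add_distrib, one_mul, he]
    have h4 := thr_iff (lim_chi h1' _ hz) (a := 1 / 2) (b := 0) (by norm_num)
    simp only [pow_one] at h4
    rw [h4]
    have hnn : ∀ i, 0 ≤ (e i + 1) * ordAt (L i) (1 / 2) := fun i =>
      mul_nonneg (by linarith [he' i]) (hp i)
    constructor
    · intro h
      refine (Finset.sum_nonpos fun i _ => ?_)
      by_cases hi : ∀ g, (ρ i g).trace = 1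
      · rw [htriv i hi, mul_zero]
      by_cases hi' : fs (ρ i) = -1
      · rw [(hem i).1 hi']
        simp
      · have h5 := h i hi hi'
        have h6 : ordAt (L i) (1 / 2) = 0 := le_antisymm h5 (hp i)
        rw [h6, mul_zero]
    · intro h i hi hi'
      have h5 : (e i + 1) * ordAt (L i) (1 / 2) ≤ 0 :=
        (Finset.single_le_sum (f := fun i => (e i + 1) * ordAt (L i) (1 / 2))
          (fun i _ => hnn i) (Finset.mem_univ i)).trans h
      have h6 : 0 < e i + 1 := by
        have h7 := he' i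
        have h8 : e i ≠ -1 := fun h => hi' ((hem i).2 h)
        omega
      by_contra h9
      push Not at h9
      have := mul_pos h6 h9
      omega
  · have h4 := (Complex.continuous_re.tendsto _).comp ((h1' (ConjClasses.mk 1)).const_mul
      (-(Nat.card (F ≃ₐ[ℚ] F) : ℂ)))
    have h5 : (-(Nat.card (F ≃ₐ[ℚ] F) : ℂ) * -m (ConjClasses.mk 1)).re =
        ∑ i, (d i : ℝ) * (ordAt (L i) (1 / 2) : ℝ) := by
      rw [neg_mul_neg, slope_one hm, Complex.re_sum]
      refine Finset.sum_congr rfl fun i _ => ?_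
      simp
    rw [h5] at h4
    refine h4.congr fun T => ?_
    simp only [Function.comp_apply]
    have h6 : -(Nat.card (F ≃ₐ[ℚ] F) : ℂ) *
        (classSum frob (inertiaAt F P) (ConjClasses.mk 1) (1 / 2) γ θ T / (Real.log T : ℂ)) =
        ((-(Nat.card (F ≃ₐ[ℚ] F) : ℝ) / Real.log T : ℝ) : ℂ) *
        classSum frob (inertiaAt F P) (ConjClasses.mk 1) (1 / 2) γ θ T := by
      push_cast
      ring
    rw [h6, Complex.re_ofReal_mul]
    ring
  · intro hA hB
    refine Finset.sum_le_sum fun i _ => ?_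
    by_cases hi' : fs (ρ i) = -1
    · rw [Set.indicator_of_mem (by exact hi'), mul_comm]
      exact mul_le_mul_of_nonneg_right (hB i hi') (by positivity)
    · rw [Set.indicator_of_notMem (by exact hi')]
      by_cases hi : ∀ g, (ρ i g).trace = 1
      · rw [htriv i hi, mul_zero]
      · exact mul_nonpos_of_nonneg_of_nonpos (by positivity) (hA i hi hi')

end Pool.Agent.Results.MP_347b49_nt.CentralOrdersFromClasses
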