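import Mathlib
import Pool.Agent.R362.CT.Sl2
import Pool.Agent.H541R3.ART.Sym
import Pool.Agent.TH820.KerArt

/-!
# Central zeros of the Artin L-functions of `SL₂(𝔽_q)`-fields, `q` a power of two

Let `F/ℚ` be a finite Galois extension whose group `G` is isomorphic to `SL₂(K)`, `K` a finite field
with `q = 2 ^ k` elements. All irreducible characters of `G` are orthogonal; for `q ≥ 8` Artin's
holomorphy conjecture is not known for them. Known are the following properties near `s = 1/2`
of the functions `L χ = L(s, χ, F/ℚ)` (`χ` an irreducible character of `G`) and `Lin H ψ`, the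
Hecke L-functions of the linear characters `ψ` of the subgroups `H` of `G` (`Lin H 1` is the
Dedekind zeta function of `F^H`); they are listed in `CentralData G`.

* `Pool.Agent.H541R3.ART.ArtinData G (1/2)` (starting files): `L χ` is meromorphic and not
  identically zero near `1/2` (Brauer), `Lin H ψ` has no pole at `1/2` (Artin reciprocity and
  Hecke), `Lin H ψ` is the product of the `L χ ^ ⟨χ|_H, ψ⟩` (induction);
* `quadratic`: if `V` is an elementary abelian `2`-subgroup, the characters `ψ` of `V` are
  quadratic or trivial, the root number of `Lin V ψ` is `+1` (Hecke), and by the functional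
  equation its order at `1/2` is even;
* `zeta`: `ζ(1/2) ≠ 0`.

We show: the order `r` of `ζ_F` at `1/2` is zero or at least `2 (q - 1)`. So if `r < 2 (q - 1)`, then
`L(s, χ)` is holomorphic and nonzero at `1/2` for all irreducible characters `χ` of `G`, that
is, statement 2 of the problem holds for `F`. A zero of the L-function of a character of degree
`q - 1`, if it exists, is at least double, because the character is orthogonal, so that it gives
`r ≥ 2 (q - 1)`: the bound is the best possible unless more is known about these zeros.

The proof: the class function `θ` of the orders has even multiplicities at the characters of the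
group `U` of upper unipotent matrices; the diagonal matrices permute the `q - 1` nontrivial
characters of `U` transitively. If one of them occurs, `r ≥ 2 (q - 1)`. Otherwise `θ` has the value
`θ(1)` on `U`, hence at all elements of order two; every element of `G` is a product of two elements
of order at most two, and `θ` has the value `θ(1)` also at such a product (starting theory
`H302R2`), so that `θ` is constant. By `ζ(1/2) ≠ 0` it is zero.
-/

set_option autoImplicit false

namespace Pool.Agent.Results.MP_347b49_nt.CentralSL2

open Pool.Agent.H302R2 Pool.Agent.H541R3.ART Pool.Agent.R362.CT Matrix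

/-- Functions with the known properties near the central point `1/2` of the Artin L-functions of a
Galois extension of `ℚ` with group `G`. -/
structure CentralData (G : Type) [Group G] extends ArtinData G (1 / 2 : ℂ) where
  /-- the root numbers of quadratic characters are `+1`: even order at `1/2` -/
  quadratic : ∀ V : Subgroup G, (∀ v ∈ V, v * v = 1) → ∀ (ψ : V →* ℂˣ) (n : ℤ),
    meromorphicOrderAt (Lin V ψ) (1 / 2) = (n : WithTop ℤ) → Even n
  /-- `ζ(1/2) ≠ 0` -/
  zeta : meromorphicOrderAt (L fun _ => 1) (1 / 2) = 0

/-- **Central zeros for `SL₂` in characteristic two.** -/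
theorem result (K : Type) [Field K] [Finite K] [CharP K 2] (G : Type) [Group G]
    (e : G ≃* SpecialLinearGroup (Fin 2) K) (A : CentralData G) (r : ℕ)
    (hr : meromorphicOrderAt (A.Lin ⊥ 1) (1 / 2) = (r : WithTop ℤ))
    (hlt : r < 2 * (Nat.card K - 1)) :
    -- `ζ_F(1/2) ≠ 0`
    r = 0 ∧
    -- all `L(s, χ)` are holomorphic and nonzero at `1/2`
    (∀ χ ∈ Irr G, meromorphicOrderAt (A.L χ) (1 / 2) = 0) ∧
    -- the same for the Hecke L-functions of the intermediate fields
    ∀ (H : Subgroup G) (ψ : H →* ℂˣ), meromorphicOrderAt (A.Lin H ψ) (1 / 2) = 0 := by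
  classical
  have : Fintype K := Fintype.ofFinite K
  have : Finite G := Finite.of_equiv _ e.symm.toEquiv
  have : Fintype G := Fintype.ofFinite G
  have hGc : (Nat.card G : ℂ) ≠ 0 := by exact_mod_cast Nat.card_pos.ne'
  have hθ := A.toArtinData.isHeilbronn
  have h1 := A.toArtinData.theta_one hr
  set θ : G → ℂ := theta A.toArtinData.ord with hθdef
  -- even multiplicities
  have hE : EvenEl θ := by
    intro V hV ψ m hm
    choose! c hc using fun χ (hχ : χ ∈ Irr G) => exists_mult hχ V ψ
    have h2 := A.toArtinData.order_Lin V ψ c hc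
    have h3 := theta_mult A.toArtinData.ord V ψ c hc
    have h4 := A.quadratic V hV ψ _ h2
    rw [← hθdef, hm] at h3
    have hV0 : (Nat.card V : ℂ) ≠ 0 := by exact_mod_cast Nat.card_pos.ne'
    have h5 := mul_right_cancel₀ hV0 h3
    have h6 : (m : ℤ) = ∑ χ ∈ irrF G, (c χ : ℤ) * A.toArtinData.ord χ := by exact_mod_cast h5
    rw [← h6] at h4
    exact_mod_cast h4
  have hconst : ∀ g, θ g = r := by
    intro g
    have h2 := sl2_full (hθ.comp e.symm.toMonoidHom) (hE.comp hθ e.symm.toMonoidHom
      e.symm.injective) (r := r) (by rw [map_one]; exact h1) hlt (e g)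
    simp only [MulEquiv.toMonoidHom_eq_coe, MonoidHom.coe_coe, MulEquiv.symm_apply_apply,
      map_one] at h2
    rw [h2, h1]
  have h1I : (fun _ : G => (1 : ℂ)) ∈ Irr G := by
    have h2 := Pool.Agent.TH820.lin_irr (1 : G →* ℂˣ)
    have h3 : (fun g : G => (((1 : G →* ℂˣ) g : ℂˣ) : ℂ)) = fun _ => 1 := by
      funext g
      simp
    rwa [h3] at h2
  have hr0 : r = 0 := by
    have h2 := theta_pair A.toArtinData.ord h1I
    have h3 : A.toArtinData.ord (fun _ : G => (1 : ℂ)) = 0 := by
      unfold ArtinData.ord
      rw [A.zeta]
      rfl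
    rw [h3, ← hθdef, Finset.sum_congr rfl fun g _ => by rw [hconst g], Finset.sum_const,
      Finset.card_univ, nsmul_eq_mul, mul_one, Int.cast_zero, zero_mul,
      ← Nat.card_eq_fintype_card] at h2
    rcases mul_eq_zero.mp h2 with h4 | h4
    · exact absurd h4 hGc
    · exact_mod_cast h4
  have hz : ∀ g, θ g = 0 := fun g => by rw [hconst g, hr0, Nat.cast_zero]
  refine ⟨hr0, ?_, ?_⟩
  · intro χ hχ
    have h3 := A.toArtinData.order_eq hχ (k := 0) (by
      rw [← hθdef, Finset.sum_congr rfl fun g _ => by rw [hz g, zero_mul]]
      simp)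
    exact_mod_cast h3
  · intro H ψ
    choose! c hc using fun χ (hχ : χ ∈ Irr G) => exists_mult hχ H ψ
    have h2 := A.toArtinData.order_Lin H ψ c hc
    have h3 := theta_mult A.toArtinData.ord H ψ c hc
    have : Fintype H := Fintype.ofFinite H
    rw [← hθdef, finsum_eq_sum_of_fintype, Finset.sum_congr rfl fun g _ => by
      rw [hz g, zero_mul], Finset.sum_const_zero] at h3
    have hH0 : (Nat.card H : ℂ) ≠ 0 := by exact_mod_cast Nat.card_pos.ne'
    have h4 : (((∑ χ ∈ irrF G, (c χ : ℤ) * A.toArtinData.ord χ : ℤ)) : ℂ) = 0 := by
      rcases mul_eq_zero.mp h3.symm with h5 | h5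
      · exact h5
      · exact absurd h5 hH0
    have h5 : (∑ χ ∈ irrF G, (c χ : ℤ) * A.toArtinData.ord χ : ℤ) = 0 := by exact_mod_cast h4
    rw [h2, h5]
    rfl

end Pool.Agent.Results.MP_347b49_nt.CentralSL2
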