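import Mathlib
import Pool.Agent.R362.CT.Dbl
import Pool.Agent.H541R3.ART.Core
import Pool.Agent.TH820.KerArt

/-!
# Double zeros of Dedekind zeta functions at `s = 1/2`

Let `F/ℚ` be a finite Galois extension, `G` its Galois group, an arbitrary finite group. Artin's
holomorphy conjecture is not known for `F/ℚ`. Known are the following properties near `s = 1/2`
of the functions `L χ = L(s, χ, F/ℚ)` (`χ` an irreducible character of `G`) and `Lin H ψ`, the
Hecke L-functions of the linear characters `ψ` of the subgroups `H` of `G` (`Lin H 1` is the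
Dedekind zeta function of `F^H`); they are listed in `CentralData G`.

* `Pool.Agent.H541R3.ART.ArtinData G (1/2)` (starting files): `L χ` is meromorphic and not
  identically zero near `1/2` (Brauer), `Lin H ψ` has no pole at `1/2` (Artin reciprocity and
  Hecke), `Lin H ψ` is the product of the `L χ ^ ⟨χ|_H, ψ⟩` (induction);
* `quadratic`: if `ψ² = 1`, the root number of `Lin H ψ` is `+1` (Hecke), and by the functional
  equation its order at `1/2` is even;
* `symm`: `L(s, ψ̄)` is the complex conjugate of `L(s̄, ψ)`, so that the orders at `1/2` agree;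
* `zeta`: `ζ(1/2) ≠ 0`.

Let `r` be the order of `ζ_F` at `s = 1/2`. If `r = 0`, all `L(1/2, χ)` are finite and nonzero. We
show: if `r ≤ 3`, then `r = 0` or `r = 2`, and in the second case one of the following holds.

* (a) `L(s, λ)` has a double zero at `1/2` for one quadratic character `λ` of `G`, or `L(s, λ)` and
  `L(s, λ̄)` have simple zeros for one pair of complex conjugate linear characters; for all other
  irreducible characters, `L(s, χ)` is holomorphic and nonzero at `1/2`.
* (b) `L(s, χ₀)` has a simple zero at `1/2` for one SYMPLECTIC irreducible character `χ₀` of degree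
  two, vanishing outside a subgroup of index two; for all other irreducible characters, `L(s, χ)`
  is holomorphic and nonzero at `1/2`.
* (c) There are a subgroup `U` of `G` with a quotient isomorphic to the quaternion group of order
  eight, and the L-function of the symplectic character of degree two of this quotient, an Artin
  L-function of a quaternion extension of `F^U`, has a zero of order exactly one at `1/2` (so its
  root number is `-1`). It is `Lin T ψ`, `T` the preimage of the cyclic subgroup of order four and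
  `ψ` its character of order four.

So if `G` has no quaternion section, statement 2 of the problem holds for all nonlinear characters
of `G`, and statement 3 holds with `M₀ = 1`, as soon as the order of `ζ_F` at `1/2` is at most 3.

The proof: the orders form a class function `θ` of degree two with multiplicities in `ℕ` at the
linear characters of subgroups. On cyclic subgroups it is `ψ + ψ⁻¹`, because the multiplicities are
symmetric and those of the quadratic characters are even; so its determinant is one. Without (c),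
a Sylow two-subgroup splits `θ`; transfer and the theory for groups of odd order (starting theory
`H302R2`) give a normal subgroup `K` with metabelian quotient on which `θ` is two, so that `θ` is a
character.
-/

set_option autoImplicit false
set_option linter.unusedSectionVars false

namespace Pool.Agent.Results.MP_347b49_nt.DoubleCentralZeros

open Pool.Agent.H302R2 Pool.Agent.H541R3.ART Pool.Agent.W446.AS Pool.Agent.R362
  Pool.Agent.R362.CT Filter Topology

/-- Functions with the known properties near the central point `1/2` of the Artin L-functions of a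
Galois extension of `ℚ` with group `G`. -/
structure CentralData (G : Type) [Group G] extends ArtinData G (1 / 2 : ℂ) where
  /-- the root numbers of quadratic characters are `+1`: even order at `1/2` -/
  quadratic : ∀ (H : Subgroup G) (ψ : H →* ℂˣ), (∀ h, ψ h * ψ h = 1) → ∀ n : ℤ,
    meromorphicOrderAt (Lin H ψ) (1 / 2) = (n : WithTop ℤ) → Even n
  /-- complex conjugation: the L-functions of `ψ` and `ψ⁻¹` have the same order at `1/2` -/
  symm : ∀ (H : Subgroup G) (ψ : H →* ℂˣ),
    meromorphicOrderAt (Lin H ψ⁻¹) (1 / 2) = meromorphicOrderAt (Lin H ψ) (1 / 2)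
  /-- `ζ(1/2) ≠ 0` -/
  zeta : meromorphicOrderAt (L fun _ => 1) (1 / 2) = 0

/-- A linear character as a function. -/
def lin {G : Type} [Group G] (ψ : G →* ℂˣ) (g : G) : ℂ := ((ψ g : ℂˣ) : ℂ)

section data

variable {G : Type} [Group G] [Finite G] (A : CentralData G)

/-- the order of `Lin H ψ` is the multiplicity of `ψ` in the class function of the orders -/
lemma CentralData.mult_Lin (H : Subgroup G) (ψ : H →* ℂˣ) : ∃ n : ℤ,
    ∑ᶠ h : H, theta A.toArtinData.ord h * (((ψ h)⁻¹ : ℂˣ) : ℂ) = (n : ℂ) * (Nat.card H : ℂ) ∧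
      meromorphicOrderAt (A.Lin H ψ) (1 / 2) = (n : WithTop ℤ) := by
  choose! m hm using fun χ (hχ : χ ∈ Irr G) => exists_mult hχ H ψ
  exact ⟨_, theta_mult A.toArtinData.ord H ψ m hm, A.toArtinData.order_Lin H ψ m hm⟩

lemma CentralData.eq_of_mult {H : Subgroup G} {ψ : H →* ℂˣ} {n : ℤ}
    (h : ∑ᶠ h : H, theta A.toArtinData.ord h * (((ψ h)⁻¹ : ℂˣ) : ℂ)
      = (n : ℂ) * (Nat.card H : ℂ)) :
    meromorphicOrderAt (A.Lin H ψ) (1 / 2) = (n : WithTop ℤ) := by
  obtain ⟨m, hm, ho⟩ := A.mult_Lin H ψ
  rw [ho]
  rw [hm] at h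
  have h2 := mul_right_cancel₀ (card_ne (G := H)) h
  have h3 : m = n := by exact_mod_cast h2
  rw [h3]

lemma CentralData.evenQuad : EvenQuad (theta A.toArtinData.ord : G → ℂ) := by
  intro H ψ hψ n hn
  have h3 := A.quadratic H ψ hψ (n : ℤ) (A.eq_of_mult (by rw [Int.cast_natCast]; exact hn))
  exact_mod_cast h3

lemma CentralData.symmetric : Symm (theta A.toArtinData.ord : G → ℂ) := by
  intro H ψ
  obtain ⟨m, hm, ho⟩ := A.mult_Lin H ψ
  obtain ⟨m', hm', ho'⟩ := A.mult_Lin H ψ⁻¹
  have h := A.symm H ψ
  rw [ho, ho'] at h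
  have h2 : m' = m := by exact_mod_cast h
  rw [hm, hm', h2]

end data

/-- **Double zeros at the central point.** -/
theorem result (G : Type) [Group G] [Finite G] (A : CentralData G) (r : ℕ)
    (hr : meromorphicOrderAt (A.Lin ⊥ 1) (1 / 2) = (r : WithTop ℤ)) (h3 : r ≤ 3) :
    -- no zero of `ζ_F`
    (r = 0 ∧ ∀ χ ∈ Irr G, meromorphicOrderAt (A.L χ) (1 / 2) = 0) ∨
    (r = 2 ∧
      -- (a) a quadratic character, or a pair of conjugate linear characters
      ((∃ l : G →* ℂˣ, l ≠ 1 ∧ l * l = 1 ∧ meromorphicOrderAt (A.L (lin l)) (1 / 2) = 2 ∧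
          ∀ χ ∈ Irr G, χ ≠ lin l → meromorphicOrderAt (A.L χ) (1 / 2) = 0) ∨
       (∃ l : G →* ℂˣ, l * l ≠ 1 ∧ meromorphicOrderAt (A.L (lin l)) (1 / 2) = 1 ∧
          meromorphicOrderAt (A.L (lin l⁻¹)) (1 / 2) = 1 ∧
          ∀ χ ∈ Irr G, χ ≠ lin l → χ ≠ lin l⁻¹ → meromorphicOrderAt (A.L χ) (1 / 2) = 0) ∨
      -- (b) a symplectic character of degree two
       (∃ χ₀ ∈ Irr G, χ₀ 1 = 2 ∧ ∑ᶠ g : G, χ₀ (g * g) = -(Nat.card G : ℂ) ∧
          (∃ T : Subgroup G, T.index = 2 ∧ ∀ g, g ∉ T → χ₀ g = 0) ∧
          meromorphicOrderAt (A.L χ₀) (1 / 2) = 1 ∧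
          ∀ χ ∈ Irr G, χ ≠ χ₀ → meromorphicOrderAt (A.L χ) (1 / 2) = 0) ∨
      -- (c) a quaternion section with a simple zero
       (∃ (U : Subgroup G) (f : U →* QuaternionGroup 2) (T : Subgroup G) (hTU : T ≤ U)
          (ψ : T →* ℂˣ), Function.Surjective f ∧
          (∀ u : U, (u : G) ∈ T ↔ f u ∈ Subgroup.zpowers (QuaternionGroup.a 1)) ∧
          (∀ t : T, f ⟨t, hTU t.2⟩ = QuaternionGroup.a 1 → ((ψ t : ℂˣ) : ℂ) = Complex.I) ∧
          meromorphicOrderAt (A.Lin T ψ) (1 / 2) = 1))) := by
  classical
  have : Fintype G := Fintype.ofFinite G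
  have hGc : (Nat.card G : ℂ) ≠ 0 := card_ne
  have hθ := A.toArtinData.isHeilbronn
  have h1 := A.toArtinData.theta_one hr
  set θ : G → ℂ := theta A.toArtinData.ord with hθdef
  have hE : EvenQuad θ := A.evenQuad
  have hS : Symm θ := A.symmetric
  have hV : Virt θ := theta_virt A.toArtinData.ord
  have hev : Even r := by
    have h2 := A.quadratic ⊥ 1 (fun h => by simp) (r : ℤ) (by rw [hr]; rfl)
    exact_mod_cast h2
  have hr02 : r = 0 ∨ r = 2 := by
    obtain ⟨k, hk⟩ := hev
    omega
  have hord0 : ∀ χ ∈ Irr G, ∑ g : G, θ g * χ g⁻¹ = 0 →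
      meromorphicOrderAt (A.L χ) (1 / 2) = 0 := by
    intro χ hχ h2
    have h4 := A.toArtinData.order_eq hχ (k := 0) (by rw [← hθdef, h2]; simp)
    exact_mod_cast h4
  have h1I : (lin (1 : G →* ℂˣ)) ∈ Irr G := Pool.Agent.TH820.lin_irr (1 : G →* ℂˣ)
  have hone : (lin (1 : G →* ℂˣ)) = fun _ => (1 : ℂ) := by
    funext g
    simp [lin]
  rcases hr02 with rfl | rfl
  · left
    refine ⟨rfl, fun χ hχ => hord0 χ hχ (Finset.sum_eq_zero fun g _ => ?_)⟩
    have h4 := hθ.norm_le g
    rw [h1, Nat.cast_zero, Complex.zero_re] at h4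
    rw [norm_le_zero_iff.mp h4, zero_mul]
  right
  refine ⟨rfl, ?_⟩
  rw [Nat.cast_ofNat] at h1
  have hd := dd_eq_one hθ hE hS h1
  by_cases hQF : QF θ
  swap
  · -- the quaternion case
    right; right; right
    unfold QF at hQF
    push Not at hQF
    obtain ⟨U, f, hf, hθf⟩ := hQF
    obtain ⟨T, hTU, ψ, hmem, hI, hm⟩ := quat_case f hf hθf
    refine ⟨U, f, T, hTU, ψ, hf, hmem, hI, ?_⟩
    exact A.eq_of_mult (n := 1) (by
      rw [Int.cast_one, ← hθdef, hm, Nat.cast_one])
  obtain ⟨K, hKn, hK, hAN⟩ := exists_K hQF hθ h1 hd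
  rcases EV.classify hθ hV h1 K hK hAN with ⟨l, m, hlm⟩ | ⟨hI, hM⟩
  · -- linear characters
    have hm : m = l⁻¹ := by
      ext g
      have h4 := dd_of_sum hlm g
      rw [hd g] at h4
      rw [MonoidHom.inv_apply]
      congr 1
      apply eq_inv_of_mul_eq_one_right
      apply Units.ext
      rw [Units.val_mul, Units.val_one]
      exact h4.symm
    subst hm
    have hpair : ∀ χ : G → ℂ, ∑ g : G, θ g * χ g⁻¹
        = ∑ g : G, lin l g * χ g⁻¹ + ∑ g : G, lin l⁻¹ g * χ g⁻¹ := by
      intro χ
      rw [← Finset.sum_add_distrib]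
      refine Finset.sum_congr rfl fun g _ => ?_
      rw [hlm g, add_mul]
      rfl
    have hlI : lin l ∈ Irr G := Pool.Agent.TH820.lin_irr l
    have hlI' : lin l⁻¹ ∈ Irr G := Pool.Agent.TH820.lin_irr l⁻¹
    have hinj : ∀ a b : G →* ℂˣ, lin a = lin b → a = b := by
      intro a b h
      ext g
      exact congrFun h g
    by_cases hll : l * l = 1
    · left
      have hinv : l⁻¹ = l := by
        ext g
        have h4 := DFunLike.congr_fun hll g
        rw [MonoidHom.mul_apply, MonoidHom.one_apply] at h4
        rw [MonoidHom.inv_apply, inv_eq_of_mul_eq_one_left h4]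
      have h2 : meromorphicOrderAt (A.L (lin l)) (1 / 2) = 2 := by
        have h4 := A.toArtinData.order_eq hlI (k := 2) (by
          rw [← hθdef, hpair, hinv, pair_self hlI]
          push_cast
          ring)
        exact_mod_cast h4
      refine ⟨l, ?_, hll, h2, ?_⟩
      · rintro rfl
        rw [hone, A.zeta] at h2
        exact absurd h2 (by decide)
      · intro χ hχ hne
        apply hord0 χ hχ
        rw [hpair, hinv, pair_ne hlI hχ (Ne.symm hne), add_zero]
    · right; left
      have hne : lin l ≠ lin l⁻¹ := by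
        intro h
        apply hll
        have h4 := hinj _ _ h
        ext g
        have h5 := DFunLike.congr_fun h4 g
        rw [MonoidHom.inv_apply] at h5
        rw [MonoidHom.mul_apply, MonoidHom.one_apply]
        nth_rewrite 1 [h5]
        rw [inv_mul_cancel]
      refine ⟨l, hll, ?_, ?_, ?_⟩
      · have h4 := A.toArtinData.order_eq hlI (k := 1) (by
          rw [← hθdef, hpair, pair_self hlI, pair_ne hlI' hlI hne.symm, add_zero]
          push_cast
          ring)
        exact_mod_cast h4
      · have h4 := A.toArtinData.order_eq hlI' (k := 1) (by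
          rw [← hθdef, hpair, pair_self hlI', pair_ne hlI hlI' hne, zero_add]
          push_cast
          ring)
        exact_mod_cast h4
      · intro χ hχ h4 h5
        apply hord0 χ hχ
        rw [hpair, pair_ne hlI hχ (Ne.symm h4), pair_ne hlI' hχ (Ne.symm h5), add_zero]
  · -- a symplectic character
    right; right; left
    obtain ⟨T, ψ, hT, hout, hin, hne, hconj, hsq⟩ := EV.ind_two hI hM h1 hd
    have hTn : T.Normal := Subgroup.normal_of_index_eq_two hT
    refine ⟨θ, hI, h1, ?_, ⟨T, hT, hout⟩, ?_, ?_⟩
    · -- the indicator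
      have hfin : Fintype T := Fintype.ofFinite T
      obtain ⟨t₀, ht₀⟩ := hne
      have hval : ∀ g : G, g ∉ T → θ (g * g) = -2 := by
        intro g hg
        have hgg : g * g ∈ T := by rw [Subgroup.mul_mem_iff_of_index_two hT]
        have h4 := hin ⟨g * g, hgg⟩
        rw [hsq g hg hgg] at h4
        change θ (g * g) = _ at h4
        rw [h4]
        norm_num
      have hsumT : ∑ t : T, θ ((t : G) * t) = 0 := by
        have h4 : ∀ t : T, θ ((t : G) * t)
            = (((ψ * ψ) t : ℂˣ) : ℂ) + (((ψ * ψ)⁻¹ t : ℂˣ) : ℂ) := by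
          intro t
          have h5 := hin (t * t)
          rw [map_mul] at h5
          exact h5
        have h5 : (ψ * ψ) t₀ ≠ 1 := by
          rw [MonoidHom.mul_apply]
          intro h6
          exact ht₀ (eq_inv_of_mul_eq_one_left h6)
        have h6 : (ψ * ψ)⁻¹ t₀ ≠ 1 := by
          rw [MonoidHom.inv_apply]
          exact fun h7 => h5 (inv_eq_one.mp h7)
        rw [Finset.sum_congr rfl fun t _ => h4 t, Finset.sum_add_distrib,
          ← finsum_eq_sum_of_fintype, ← finsum_eq_sum_of_fintype,
          sum_zpowers_eq_zero _ h5, sum_zpowers_eq_zero _ h6, add_zero]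
      have hcard : Nat.card G = 2 * Nat.card T := by
        rw [← T.index_mul_card, hT]
      rw [finsum_eq_sum_of_fintype]
      have hsplit := Finset.sum_filter_add_sum_filter_not (Finset.univ : Finset G)
        (fun g : G => g ∈ T) (fun g => θ (g * g))
      have e1 : ∑ g ∈ Finset.univ.filter (fun g : G => g ∈ T), θ (g * g)
          = ∑ t : T, θ ((t : G) * t) :=
        (Finset.sum_subtype (Finset.univ.filter fun g : G => g ∈ T) (p := fun g => g ∈ T)
          (fun g => by simp) (fun g => θ (g * g)))
      have e2 : ∑ g ∈ Finset.univ.filter (fun g : G => ¬ g ∈ T), θ (g * g)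
          = -(Nat.card G : ℂ) := by
        rw [Finset.sum_congr rfl fun g hg => hval g (Finset.mem_filter.mp hg).2,
          Finset.sum_const, nsmul_eq_mul]
        have hc1 : (Finset.univ.filter (fun x : G => x ∈ T)).card = Nat.card T := by
          rw [Nat.card_eq_fintype_card, Fintype.card_subtype]
        have h4 := Finset.card_filter_add_card_filter_not (s := (Finset.univ : Finset G))
          (fun x : G => x ∈ T)
        rw [hc1, Finset.card_univ, ← Nat.card_eq_fintype_card, hcard] at h4
        have hc2 : (Finset.univ.filter (fun x : G => ¬ x ∈ T)).card = Nat.card T := by omega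
        rw [hc2, hcard]
        push_cast
        ring
      rw [← hsplit, e1, e2, hsumT, zero_add]
    · have h4 := A.toArtinData.order_eq hI (k := 1) (by
        rw [← hθdef, pair_self hI]
        push_cast
        ring)
      exact_mod_cast h4
    · intro χ hχ hne'
      apply hord0 χ hχ
      rw [pair_ne hI hχ (Ne.symm hne')]

end Pool.Agent.Results.MP_347b49_nt.DoubleCentralZeros
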