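import Pool.Agent.R399.TM.Avg

/-!
# The total central order of the twists of all characters of a Galois group

Let `ρ_1, ..., ρ_n` be irreducible Artin representations of `ℚ` of degrees `m_i ≤ 3` which are
automorphic and cuspidal (all odd ones of degree two, all of degree two with solvable image, all those
induced from a character of a real quadratic or totally real cubic field, for which everything is
proved here), for instance all the characters of degree two and three of a Galois group
`Gal(L₀/ℚ)`, and let `w_i` be weights, for instance `w_i = m_i`.  For a primitive Dirichlet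
character `χ` let `F` be the compositum of `L₀` and the cyclic field of `χ`; the `ρ_i ⊗ χ` are
irreducible characters of `Gal(F/ℚ)` and `∏ L(s, ρ_i ⊗ χ)^(m_i)` divides the Dedekind zeta function of `F`.
Statements 2 and 3 of the problem bound the orders of the factors at `s = 1/2` by `0` or by an
absolute constant.  The trivial bound for the order of the product is `O(log q)`
(`O(log q / log log q)` under the Riemann hypothesis), and we know of no better bound for almost all
`χ` or on average if one of the degrees is three.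

We prove, with no hypothesis on zeros, for the primitive `χ` of conductor `2 ≤ q ≤ Q` prime to the
conductors of the `ρ_i`, with `W = ∑ w_i`:

* (1) the number of the `χ` for which the total order `D(χ) = ∑ w_i ord_{s=1/2} L(s, ρ_i ⊗ χ)` is at
  least `k` is at most `C (1 + log Q)^B Q² exp(-k / (500 W))`, for all `k` and `Q`; so
  `D(χ) ≥ ε log Q` for at most `Q^(2 - ε / (500 W) + o(1))` of the `χ`;
* (2) the average of `D(χ)` over the `χ` is `O(log log Q)`;
* (3) for every `a` there is `K` such that `D(χ) ≤ K log (2 + log Q)` for all but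
  `K Q² / (1 + log Q)^a` of the `χ`.

The families are given as in the starting result `CuspidalTwists` (`IsFamily`): an Euler product of
degree `m` whose twists have the analytic properties of automorphic L-functions, or the induction of
a Hecke character (of finite order for Artin representations) of a totally real field of degree `m`,
where nothing is assumed.

Proof.  `L(s) M(s)`, `M` a mollifier of length `Q^(1/3)`, is in mean square close to a constant
between `1/2` and `1` to the right of `1/2 + O(1/log Q)` (large sieve, functional equation, Gaussian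
kernel), and of mean square `Q^(O(a)) (log Q)^B` at distance `a` from the critical line (three lines theorem);
dividing by `(s - 1/2)^k` one finds that a zero of order `k` is possible only with frequency
`exp(-c k)`.
-/

set_option autoImplicit false

open Complex

namespace Pool.Agent.Results.MP_347b49_nt.TotalCentralOrder

open Pool.Agent.Results.MP_77948b_nt.CuspidalTwists (IsFamily)

/-- The number of the primitive Dirichlet characters `χ` of conductor `q`, `2 ≤ q ≤ Q`, `q` prime to
`N`, which have the property `S q χ`. -/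
noncomputable def count (N Q : ℕ) (S : (q : ℕ) → DirichletCharacter ℂ q → Prop) : ℕ :=
  ∑ q ∈ (Finset.Icc 2 Q).filter (fun q => Nat.Coprime q N),
    {χ : DirichletCharacter ℂ q | χ.IsPrimitive ∧ S q χ}.ncard

/-- The sum of `f q χ` over the primitive Dirichlet characters `χ` of conductor `q`, `2 ≤ q ≤ Q`, `q`
prime to `N`. -/
noncomputable def sumOver (N Q : ℕ) (f : (q : ℕ) → DirichletCharacter ℂ q → ℕ) : ℝ :=
  ∑ q ∈ (Finset.Icc 2 Q).filter (fun q => Nat.Coprime q N),
    ∑ᶠ χ ∈ {χ : DirichletCharacter ℂ q | χ.IsPrimitive}, (f q χ : ℝ)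

/-- The total order at `s = 1/2`, with weights. -/
noncomputable def totalOrder {n : ℕ} (w : Fin n → ℕ)
    (L : Fin n → (q : ℕ) → DirichletCharacter ℂ q → ℂ → ℂ) (q : ℕ)
    (χ : DirichletCharacter ℂ q) : ℕ :=
  ∑ i, w i * analyticOrderNatAt (L i q χ) (1 / 2)

/-- **Theorem.** -/
theorem result (n N : ℕ) (m N' w : Fin n → ℕ) (W : ℕ) (hw : ∑ i, w i ≤ W) (hW : 1 ≤ W)
    (L : Fin n → (q : ℕ) → DirichletCharacter ℂ q → ℂ → ℂ) (hm : ∀ i, m i ≤ 3)
    (hN : ∀ i, N' i ∣ N) (hL : ∀ i, IsFamily (m i) (N' i) (L i)) :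
    (∀ (i : Fin n) (q : ℕ) (χ : DirichletCharacter ℂ q), 2 ≤ q → Nat.Coprime q N →
      χ.IsPrimitive → Differentiable ℂ (L i q χ) ∧ ∀ s : ℂ, analyticOrderAt (L i q χ) s ≠ ⊤) ∧
    (∃ C B : ℝ, ∀ Q k : ℕ, 1 ≤ Q →
      (count N Q (fun q χ => k ≤ totalOrder w L q χ) : ℝ) ≤
        C * (1 + Real.log Q) ^ B * ((Q : ℝ) ^ 2 * Real.exp (-(k : ℝ) / (500 * W)))) ∧
    (∃ C : ℝ, ∀ Q : ℕ, 1 ≤ Q →
      sumOver N Q (totalOrder w L) ≤ C * (Q : ℝ) ^ 2 * Real.log (2 + Real.log Q)) ∧
    (∀ a : ℝ, ∃ K : ℝ, 0 < K ∧ ∀ Q : ℕ, 1 ≤ Q →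
      (count N Q (fun q χ => K * Real.log (2 + Real.log Q) < (totalOrder w L q χ : ℝ)) : ℝ) ≤
        K * (Q : ℝ) ^ 2 / (1 + Real.log Q) ^ a) := by
  have h := fun i => Pool.Agent.R399.TM.fo_of_family (hL i)
  have hfin : ∀ (i : Fin n) (q : ℕ) (χ : DirichletCharacter ℂ q), 2 ≤ q → Nat.Coprime q N →
      χ.IsPrimitive → Differentiable ℂ (L i q χ) ∧ ∀ s : ℂ, analyticOrderAt (L i q χ) s ≠ ⊤ := by
    intro i q χ hq hqN hχ
    have hqN' := Nat.Coprime.coprime_dvd_right (hN i) hqN
    refine ⟨?_, (h i).fin hq hqN' hχ⟩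
    obtain ⟨c, R₀, V, C, -, -, -, -, hmem⟩ := h i
    exact (hmem q χ hq hqN' hχ).1
  obtain ⟨C₁, hC₁, havg⟩ := Pool.Agent.R399.TM.multi_avg hw hW hm hN h
  obtain ⟨C₂, B₂, hC₂, hB₂, htail⟩ := Pool.Agent.R399.TM.multi_ord hw hW hm hN h
  have hW0 : (0 : ℝ) < W := by exact_mod_cast (by omega : 0 < W)
  have hp0 : Pool.Agent.R399.TW.pt (1 / 2) 0 = 1 / 2 := by
    unfold Pool.Agent.R399.TW.pt
    push_cast
    ring
  have hcount : ∀ (Q k : ℕ), 1 ≤ Q →
      (count N Q (fun q χ => k ≤ totalOrder w L q χ) : ℝ) ≤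
        C₂ * 2 ^ 10 * (1 + Real.log Q) ^ B₂ *
          ((Q : ℝ) ^ 2 * Real.exp (-(k : ℝ) / (500 * W))) := by
    intro Q k hQ
    have h1 := htail Q 0 k hQ le_rfl
    rw [add_zero] at h1
    refine le_trans ?_ h1
    refine Pool.Agent.R399.TM.count_mono (N := N) (N' := N) (Q := Q)
      (S := fun q χ => k ≤ totalOrder w L q χ) (dvd_refl N) ?_
    intro q χ hq hqN hχ hk
    refine ⟨0, by simp, ?_⟩
    rw [hp0]
    exact hk
  refine ⟨hfin, ⟨_, B₂, hcount⟩, ⟨C₁ * 3, fun Q hQ => ?_⟩, fun a => ?_⟩
  · have h1 := havg Q 0 hQ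
    rw [hp0, abs_zero, add_zero] at h1
    have hq1 : (1 : ℝ) ≤ Q := by exact_mod_cast hQ
    have hlq : 0 ≤ Real.log Q := Real.log_nonneg hq1
    have h2 : Real.log (1 + Real.log Q) ≤ Real.log (2 + Real.log Q) :=
      Real.log_le_log (by linarith) (by linarith)
    have h3 : Real.log 2 ≤ Real.log (2 + Real.log Q) :=
      Real.log_le_log (by norm_num) (by linarith)
    have h4 : 0 ≤ Real.log (2 + Real.log Q) := Real.log_nonneg (by linarith)
    have h5 : Real.log (1 + Real.log Q) + Real.log 2 ≤ 3 * Real.log (2 + Real.log Q) := by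
      linarith
    refine le_trans h1 ?_
    calc C₁ * (Q : ℝ) ^ 2 * (Real.log (1 + Real.log Q) + Real.log 2)
        ≤ C₁ * (Q : ℝ) ^ 2 * (3 * Real.log (2 + Real.log Q)) := by gcongr
      _ = _ := by ring
  · -- almost all
    set C : ℝ := C₂ * 2 ^ 10 with hCd
    have hC0 : 0 ≤ C := by positivity
    refine ⟨500 * W * (B₂ + |a|) + C + 1, by positivity, fun Q hQ => ?_⟩
    set K : ℝ := 500 * W * (B₂ + |a|) + C + 1 with hK
    have hKC : C ≤ K := by
      rw [hK]
      have : 0 ≤ 500 * W * (B₂ + |a|) := by positivity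
      linarith
    have hK1 : 500 * W * (B₂ + |a|) ≤ K := by
      rw [hK]
      linarith
    have hK0 : 0 ≤ K := by
      have : 0 ≤ 500 * W * (B₂ + |a|) := by positivity
      linarith
    have hq1 : (1 : ℝ) ≤ Q := by exact_mod_cast hQ
    have hlq : 0 ≤ Real.log Q := Real.log_nonneg hq1
    set l : ℝ := 1 + Real.log Q with hl
    have hl1 : 1 ≤ l := by linarith
    have hl0 : 0 < l := by linarith
    have hlog : Real.log l ≤ Real.log (2 + Real.log Q) := Real.log_le_log hl0 (by linarith)
    have hll : 0 ≤ Real.log l := Real.log_nonneg hl1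
    set k : ℕ := ⌈K * Real.log (2 + Real.log Q)⌉₊ with hk
    have hkle : K * Real.log (2 + Real.log Q) ≤ k := Nat.le_ceil _
    have h1 : (count N Q (fun q χ =>
        K * Real.log (2 + Real.log Q) < (totalOrder w L q χ : ℝ)) : ℝ) ≤
        count N Q (fun q χ => k ≤ totalOrder w L q χ) :=
      Pool.Agent.R399.TM.count_mono (N := N) (N' := N) (Q := Q)
        (S := fun q χ => K * Real.log (2 + Real.log Q) < (totalOrder w L q χ : ℝ))
        (S' := fun q χ => k ≤ totalOrder w L q χ) (dvd_refl N)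
        fun q χ _ _ _ h2 => Nat.ceil_le.2 h2.le
    refine h1.trans ((hcount Q k hQ).trans ?_)
    have h2 : Real.exp (-(k : ℝ) / (500 * W)) ≤ l ^ (-(B₂ + |a|)) := by
      rw [Real.rpow_def_of_pos hl0]
      apply Real.exp_le_exp.2
      have h3 : 500 * W * (B₂ + |a|) * Real.log l ≤ K * Real.log (2 + Real.log Q) := by gcongr
      rw [div_le_iff₀ (by positivity)]
      have h4 : Real.log l * -(B₂ + |a|) * (500 * W) = -(500 * W * (B₂ + |a|) * Real.log l) := by
        ring
      rw [h4]
      linarith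
    have h3 : l ^ B₂ * l ^ (-(B₂ + |a|)) ≤ 1 / l ^ a := by
      rw [← Real.rpow_add hl0, one_div, ← Real.rpow_neg hl0.le]
      refine Real.rpow_le_rpow_of_exponent_le hl1 ?_
      have := le_abs_self a
      linarith
    calc C * l ^ B₂ * ((Q : ℝ) ^ 2 * Real.exp (-(k : ℝ) / (500 * W)))
        ≤ C * l ^ B₂ * ((Q : ℝ) ^ 2 * l ^ (-(B₂ + |a|))) := by gcongr
      _ = C * (Q : ℝ) ^ 2 * (l ^ B₂ * l ^ (-(B₂ + |a|))) := by ring
      _ ≤ C * (Q : ℝ) ^ 2 * (1 / l ^ a) := by gcongr
      _ ≤ K * (Q : ℝ) ^ 2 * (1 / l ^ a) := by gcongr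
      _ = _ := by ring

end Pool.Agent.Results.MP_347b49_nt.TotalCentralOrder
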